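import Pool.Agent.H211.CH.Stm

/-!
# Chains of strict intertwining: task C6
-/

set_option autoImplicit false

open Polynomial

namespace Pool.Agent.H322.CH211

open Pool.Agent.H211.CH

universe u

variable {K : Type u} [Field K]

theorem dick2 : dickson 1 (1 : K) 2 = X ^ 2 - C 2 := by
  rw [dickson_two]
  simp only [map_one, one_mul, Nat.cast_one]
  have : (C 2 : K[X]) = 3 - 1 := by
    rw [show (C 2 : K[X]) = 2 from rfl]; norm_num
  rw [this]

theorem t_C6 [IsAlgClosed K] [CharZero K] (h1 : S_C1 K) : S_C6 K := by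
  intro P hP hc
  obtain ⟨L, hL, ε, hε, h⟩ := h1.1 P hc (by omega)
  obtain ⟨a, b, hab⟩ := Polynomial.exists_eq_X_add_C_of_natDegree_le_one hL.le
  have ha : a ≠ 0 := by
    rintro rfl
    rw [hab, map_zero, zero_mul, zero_add, natDegree_C] at hL
    exact zero_ne_one hL
  set M : K[X] := C a⁻¹ * (X - C b) with hM
  have hLM : L.comp M = X := by
    rw [hab, hM]
    simp only [add_comp, mul_comp, C_comp, X_comp]
    rw [← mul_assoc, ← C_mul, mul_inv_cancel₀ ha, map_one, one_mul, sub_add_cancel]
  have hML : M.comp L = X := by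
    rw [hab, hM]
    simp only [sub_comp, mul_comp, C_comp, X_comp]
    rw [add_sub_cancel_right, ← mul_assoc, ← C_mul, inv_mul_cancel₀ ha, map_one, one_mul]
  have hMP : M.comp P = (C ε * dickson 1 (1 : K) P.natDegree).comp M := by
    have e1 : P = (L.comp (C ε * dickson 1 (1 : K) P.natDegree)).comp M := by
      rw [← h, comp_assoc, hLM, comp_X]
    calc M.comp P = M.comp ((L.comp (C ε * dickson 1 (1 : K) P.natDegree)).comp M) := by
          rw [← e1]
      _ = ((M.comp L).comp (C ε * dickson 1 (1 : K) P.natDegree)).comp M := by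
          rw [comp_assoc, comp_assoc, comp_assoc]
      _ = _ := by rw [hML, X_comp]
  have hev : (dickson 1 (1 : K) 2).comp (C ε * dickson 1 (1 : K) P.natDegree) =
      (dickson 1 (1 : K) 2).comp (dickson 1 (1 : K) P.natDegree) := by
    rw [dick2]
    simp only [sub_comp, pow_comp, C_comp, X_comp]
    rw [mul_pow, ← C_pow]
    have : ε ^ 2 = 1 := by
      rcases hε with rfl | rfl <;> norm_num
    rw [this, map_one, one_mul]
  refine ⟨(dickson 1 (1 : K) 2).comp M, ?_, ?_⟩
  · rw [natDegree_comp, dick2, natDegree_X_pow_sub_C]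
    have : M.natDegree = 1 := by
      rw [hM, natDegree_C_mul (inv_ne_zero ha), natDegree_X_sub_C]
    omega
  · rw [comp_assoc, hMP, ← comp_assoc, hev, ← comp_assoc, dickson_one_one_comp_comm]

end Pool.Agent.H322.CH211
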